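import Pool.Agent.W525.Cliff
import Pool.Agent.TH350.J203

/-!
# Line bundles on curves: Riemann-Roch and twisting by points
-/

open scoped WithZero Matrix IntermediateField
open WithZero

set_option linter.unusedSectionVars false
set_option linter.unusedVariables false

namespace Pool.Agent.Q78.BN

open Pool.Agent.Helper395.CS hiding genus
open Pool.Agent.Helper395.BC Pool.Agent.W525.BA

variable {K : Type} [Field K] [Algebra ℂ K]

/-- Riemann-Roch in large degree. -/
theorem h0_large (hK : IsCurve K) (hg : genus K ≠ 0) (L : LineBundle K)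
    (h : 2 * (genus K : ℤ) - 2 < L.degree) :
    (Module.finrank ℂ (H0 L) : ℤ) = L.degree + 1 - genus K := by
  have h1 := (rrL hK hg L).2
  have h2 : (lmul (can hK hg) (linv L)).degree < 0 := by
    rw [lmul_degree, linv_degree, can_degree]
    omega
  rw [H0_eq_bot hK h2, finrank_bot] at h1
  push_cast at h1
  omega

/-- Riemann's inequality. -/
theorem h0_ge (hK : IsCurve K) (hg : genus K ≠ 0) (L : LineBundle K) :
    L.degree + 1 - genus K ≤ (Module.finrank ℂ (H0 L) : ℤ) := by
  have h1 := (rrL hK hg L).2
  omega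

theorem H0_lsub_le' (L : LineBundle K) (v : Point K) : H0 (lsub L v) ≤ H0 L := by
  apply H0_mono
  intro w s hs
  rcases eq_or_ne w v with rfl | hw
  · rw [mem_lsub_self] at hs
    exact hs.le
  · rwa [mem_lsub_ne L hw] at hs

/-- Twisting down by `k` points loses at most `k` sections. -/
theorem exists_down (hK : IsCurve K) (hg : genus K ≠ 0) (L : LineBundle K) (k : ℕ) :
    ∃ M : LineBundle K, M.degree = L.degree - k ∧ H0 M ≤ H0 L ∧
      Module.finrank ℂ (H0 L) ≤ Module.finrank ℂ (H0 M) + k := by
  obtain ⟨v⟩ := point_nonempty hK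
  induction k with
  | zero => exact ⟨L, by simp, le_refl _, by simp⟩
  | succ k ih =>
    obtain ⟨M, h1, h2, h3⟩ := ih
    refine ⟨lsub M v, ?_, (H0_lsub_le' M v).trans h2, ?_⟩
    · rw [lsub_degree, h1]; push_cast; ring
    · have := h0_lsub hK hg M v
      omega

/-- Twisting up by `k` points. -/
theorem exists_up (hK : IsCurve K) (L : LineBundle K) (k : ℕ) :
    ∃ M : LineBundle K, M.degree = L.degree + k ∧ H0 L ≤ H0 M := by
  obtain ⟨v⟩ := point_nonempty hK
  induction k with
  | zero => exact ⟨L, by simp, le_refl _⟩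
  | succ k ih =>
    obtain ⟨M, h1, h2⟩ := ih
    refine ⟨lmul M (lpt v), ?_, h2.trans (H0_mono (le_lmul_lpt M v))⟩
    rw [lmul_degree, lpt_degree, h1]; push_cast; ring

/-- products of sections are sections of the tensor product -/
theorem mul_le_lmul (L M : LineBundle K) (V W : Submodule ℂ K) (hV : V ≤ H0 L) (hW : W ≤ H0 M) :
    V * W ≤ H0 (lmul L M) := by
  rw [Submodule.mul_le]
  intro s hs t ht v
  rw [mem_lmul, map_mul]
  exact mul_le_mul' (hV hs v) (hW ht v)

end Pool.Agent.Q78.BN
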