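import Pool.Agent.Q78.BN.HypExist

/-!
# A very ample line bundle of degree `d` forces `2g ≤ (d-1)(d-2)`
-/

open scoped WithZero Matrix Polynomial IntermediateField
open WithZero

set_option linter.unusedSectionVars false
set_option linter.unusedVariables false

namespace Pool.Agent.Q78.BN

open Pool.Agent.Helper395.CS hiding genus map_mul map_inv
open Pool.Agent.Helper395.BC Pool.Agent.W525.BA
open Pool.Agent.TH350.J203 (mem_H0_lsub)

variable {K : Type} [Field K] [Algebra ℂ K]

/-- the size of the generator of the twist `𝒪(-v)` -/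
noncomputable def pp (v w : Point K) : ℤᵐ⁰ := w.val ((linv (lpt v)).frame w : K)

theorem val_lsub_frame (L : LineBundle K) (v w : Point K) :
    w.val ((lsub L v).frame w : K) = w.val (L.frame w : K) * pp v w := by
  change w.val ((L.frame w * (linv (lpt v)).frame w : Kˣ) : K) = _
  rw [Units.val_mul, map_mul]
  rfl

/-- the twist of `M` by the points `Q 0, …, Q (k-1)` -/
noncomputable def tw (M : LineBundle K) (Q : ℕ → Point K) : ℕ → LineBundle K
  | 0 => M
  | k + 1 => lsub (tw M Q k) (Q k)

theorem val_tw (M : LineBundle K) (Q : ℕ → Point K) (k : ℕ) (w : Point K) :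
    w.val ((tw M Q k).frame w : K) =
      w.val (M.frame w : K) * ∏ j ∈ Finset.range k, pp (Q j) w := by
  induction k with
  | zero => rw [Finset.prod_range_zero, mul_one]; rfl
  | succ k ih =>
    rw [Finset.prod_range_succ, ← mul_assoc, ← ih]
    exact val_lsub_frame _ _ _

/-- powers of a line bundle -/
noncomputable def pw (L : LineBundle K) : ℕ → LineBundle K
  | 0 => one K
  | n + 1 => lmul (pw L n) L

theorem pw_degree (L : LineBundle K) (n : ℕ) : (pw L n).degree = n * L.degree := by
  induction n with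
  | zero => rw [pw, one_degree]; simp
  | succ n ih => rw [pw, lmul_degree, ih]; push_cast; ring

theorem val_pw (L : LineBundle K) (n : ℕ) (w : Point K) :
    w.val ((pw L n).frame w : K) = w.val (L.frame w : K) ^ n := by
  induction n with
  | zero =>
    rw [pow_zero]
    change w.val ((1 : Kˣ) : K) = 1
    rw [Units.val_one, map_one]
  | succ n ih =>
    rw [pow_succ, ← ih]
    change w.val (((pw L n).frame w * L.frame w : Kˣ) : K) = _
    rw [Units.val_mul, map_mul]

/-- the zeros of a section -/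
theorem exists_zeros (hK : IsCurve K) : ∀ (d : ℕ) (L : LineBundle K) (s : K), s ≠ 0 → s ∈ H0 L →
    L.degree = d → ∃ Q : ℕ → Point K, s ∈ H0 (tw L Q d) := by
  intro d
  induction d with
  | zero =>
    intro L s _ hs _
    obtain ⟨v⟩ := point_nonempty hK
    exact ⟨fun _ => v, hs⟩
  | succ d ih =>
    intro L s hs0 hs hL
    obtain ⟨v, hv⟩ : ∃ v : Point K, v.val s < v.val (L.frame v : K) := by
      by_contra hcon
      push Not at hcon
      have h := ldegree_le hK (L := L) (M := lprin hK (Units.mk0 s hs0)) (fun v t ht => by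
        change v.val t ≤ v.val s
        exact le_trans ht (hcon v))
      rw [lprin_degree, hL] at h
      push_cast at h
      omega
    obtain ⟨Q, hQ⟩ := ih (lsub L v) s hs0 ((mem_H0_lsub L v s).2 ⟨hs, hv⟩) (by
      rw [lsub_degree, hL]; push_cast; ring)
    refine ⟨fun j => Nat.casesOn j v Q, ?_⟩
    rw [mem_H0] at hQ ⊢
    intro w
    have h := hQ w
    rw [val_tw, val_lsub_frame] at h
    rw [val_tw, Finset.prod_range_succ']
    rw [mul_assoc, mul_comm (pp v w)] at h
    exact h

theorem tw_le (M : LineBundle K) (Q : ℕ → Point K) (k : ℕ) : H0 (tw M Q (k + 1)) ≤ H0 (tw M Q k) :=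
  H0_lsub_le' _ _

/-- one step of the chain -/
theorem tw_lt (hK : IsCurve K) (hg : genus K ≠ 0) {L : LineBundle K}
    (hL : ∀ v w, Module.finrank ℂ (H0 (lsub (lsub L v) w)) + 2 ≤ Module.finrank ℂ (H0 L))
    (Q : ℕ → Point K) {n k : ℕ} (hk : k ≤ n) :
    Module.finrank ℂ (H0 (tw (pw L n) Q (k + 1))) + 1 ≤
      Module.finrank ℂ (H0 (tw (pw L n) Q k)) := by
  set w := Q k with hw
  have h1 : ∀ j : ℕ, ∃ s ∈ H0 (lsub L (Q j)), w.val s = w.val ((lsub L (Q j)).frame w : K) := by
    intro j
    apply exists_generator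
    have h2 := hL (Q j) w
    have h3 := h0_lsub hK hg L (Q j)
    omega
  obtain ⟨u, hu, huw⟩ : ∃ s ∈ H0 L, w.val s = w.val (L.frame w : K) := by
    apply exists_generator
    have h2 := hL w w
    have h3 := h0_lsub hK hg (lsub L w) w
    omega
  choose t ht htw using h1
  have hf : (∏ j ∈ Finset.range k, t j) * u ^ (n - k) ∈ H0 (tw (pw L n) Q k) := by
    rw [mem_H0]
    intro v
    rw [val_tw, val_pw, map_mul, map_pow, map_prod]
    have h4 : ∏ j ∈ Finset.range k, v.val (t j) ≤
        v.val (L.frame v : K) ^ k * ∏ j ∈ Finset.range k, pp (Q j) v := by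
      have h5 : ∏ j ∈ Finset.range k, v.val (t j) ≤
          ∏ j ∈ Finset.range k, (v.val (L.frame v : K) * pp (Q j) v) := by
        refine Finset.prod_le_prod' fun j _ => ?_
        rw [← val_lsub_frame]
        exact ht j v
      rwa [Finset.prod_mul_distrib, Finset.prod_const, Finset.card_range] at h5
    have h6 : v.val u ^ (n - k) ≤ v.val (L.frame v : K) ^ (n - k) := pow_le_pow_left' (hu v) _
    refine (mul_le_mul' h4 h6).trans (le_of_eq ?_)
    rw [mul_right_comm, ← pow_add]
    congr 3
    omega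
  have hfw : w.val ((∏ j ∈ Finset.range k, t j) * u ^ (n - k)) =
      w.val ((tw (pw L n) Q k).frame w : K) := by
    rw [val_tw, val_pw, map_mul, map_pow, map_prod, huw, Finset.prod_congr rfl fun j _ => htw j,
      Finset.prod_congr rfl fun j _ => val_lsub_frame L (Q j) w, Finset.prod_mul_distrib,
      Finset.prod_const, Finset.card_range, mul_right_comm, ← pow_add]
    congr 3
    omega
  have hnot : (∏ j ∈ Finset.range k, t j) * u ^ (n - k) ∉ H0 (tw (pw L n) Q (k + 1)) := by
    intro h
    have h2 := ((mem_H0_lsub (tw (pw L n) Q k) (Q k) _).1 h).2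
    rw [← hw, hfw] at h2
    exact lt_irrefl _ h2
  have hlt : H0 (tw (pw L n) Q (k + 1)) < H0 (tw (pw L n) Q k) :=
    lt_of_le_of_ne (tw_le _ _ _) fun h => hnot (h ▸ hf)
  have hfin := H0_finite hK hg (tw (pw L n) Q k)
  exact Submodule.finrank_lt_finrank_of_lt hlt

theorem tw_chain (hK : IsCurve K) (hg : genus K ≠ 0) {L : LineBundle K}
    (hL : ∀ v w, Module.finrank ℂ (H0 (lsub (lsub L v) w)) + 2 ≤ Module.finrank ℂ (H0 L))
    (Q : ℕ → Point K) (n k : ℕ) :
    Module.finrank ℂ (H0 (tw (pw L n) Q k)) + min k (n + 1) ≤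
      Module.finrank ℂ (H0 (pw L n)) := by
  induction k with
  | zero =>
    rw [Nat.zero_min, Nat.add_zero]
    exact le_refl _
  | succ k ih =>
    by_cases hk : k ≤ n
    · have := tw_lt hK hg hL Q hk
      omega
    · have hfin := H0_finite hK hg (tw (pw L n) Q k)
      have := Submodule.finrank_mono (tw_le (pw L n) Q k)
      omega

/-- the growth of the powers -/
theorem pw_step (hK : IsCurve K) (hg : genus K ≠ 0) {L : LineBundle K} {d : ℕ}
    (hd : L.degree = d)
    (hL : ∀ v w, Module.finrank ℂ (H0 (lsub (lsub L v) w)) + 2 ≤ Module.finrank ℂ (H0 L))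
    (n : ℕ) :
    Module.finrank ℂ (H0 (pw L n)) + min d (n + 2) ≤ Module.finrank ℂ (H0 (pw L (n + 1))) := by
  obtain ⟨v⟩ := point_nonempty hK
  have hfinL := H0_finite hK hg L
  have hpos : 0 < Module.finrank ℂ (H0 L) := by have := hL v v; omega
  obtain ⟨⟨s, hs⟩, hs0⟩ := Module.finrank_pos_iff_exists_ne_zero.1 hpos
  have hs0' : s ≠ 0 := fun h => hs0 (Subtype.ext h)
  obtain ⟨Q, hQ⟩ := exists_zeros hK d L s hs0' hs hd
  have h1 := tw_chain hK hg hL Q (n + 1) d
  have hmem : ∀ f ∈ H0 (pw L n), s * f ∈ H0 (tw (pw L (n + 1)) Q d) := by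
    intro f hf
    rw [mem_H0]
    intro w
    have h2 : w.val s ≤ _ := hQ w
    have h3 : w.val f ≤ w.val ((pw L n).frame w : K) := hf w
    rw [val_tw] at h2
    rw [val_pw] at h3
    rw [val_tw, val_pw, map_mul, pow_succ, mul_assoc, mul_comm (w.val s)]
    exact mul_le_mul' h3 h2
  let e : H0 (pw L n) →ₗ[ℂ] H0 (tw (pw L (n + 1)) Q d) :=
    { toFun := fun f => ⟨s * f, hmem f f.2⟩
      map_add' := fun a b => Subtype.ext (by
        change s * ((a : K) + b) = s * a + s * b
        ring)
      map_smul' := fun c a => Subtype.ext (by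
        change s * (c • (a : K)) = c • (s * (a : K))
        rw [mul_smul_comm]) }
  have hinj : Function.Injective e := by
    intro a b hab
    have h2 : s * (a : K) = s * b := congrArg Subtype.val hab
    exact Subtype.ext (mul_left_cancel₀ hs0' h2)
  have hfin := H0_finite hK hg (tw (pw L (n + 1)) Q d)
  have h2 := LinearMap.finrank_le_finrank_of_injective hinj
  omega

/-- the numerical part: growth of a sequence -/
theorem growth (a : ℕ → ℕ) (d : ℕ) (h0 : 1 ≤ a 0) (h : ∀ n, a n + min d (n + 2) ≤ a (n + 1))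
    (k : ℕ) : 2 * (k * d + d * (d - 1)) + 2 ≤ 2 * a (d - 1 + k) + (d - 1) * (d - 2) := by
  have h1 : ∀ n, n + 1 ≤ d → (n + 1) * (n + 2) ≤ 2 * a n := by
    intro n
    induction n with
    | zero => intro _; omega
    | succ n ih =>
      intro hn
      have h2 := ih (by omega)
      have h3 := h n
      rw [min_eq_right (by omega)] at h3
      nlinarith
  induction k with
  | zero =>
    rcases d with _ | d
    · have : 2 ≤ 2 * a 0 := by omega
      simpa using this
    · have h2 := h1 d le_rfl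
      simp only [Nat.add_sub_cancel, Nat.add_zero, Nat.zero_mul, Nat.zero_add]
      rcases d with _ | d
      · simpa using h0
      · have h4 : d + 1 + 1 - 2 = d := by omega
        rw [h4]
        nlinarith
  | succ k ih =>
    have h3 := h (d - 1 + k)
    have h4 : d ≤ min d (d - 1 + k + 2) := by rw [le_min_iff]; omega
    have h5 : d - 1 + (k + 1) = d - 1 + k + 1 := by omega
    rw [h5]
    nlinarith

/-- A line bundle `L` of degree `d` on a curve of genus `g` with `(d-1)(d-2) < 2g` is not very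
ample: there are points `v`, `w` with `h⁰(L) ≤ h⁰(L(-v-w)) + 1`. -/
theorem not_very_ample (hK : IsCurve K) (hg : genus K ≠ 0) {L : LineBundle K} {d : ℕ}
    (hd : L.degree = d) (hdg : (d - 1) * (d - 2) < 2 * genus K) :
    ∃ v w, Module.finrank ℂ (H0 L) ≤ Module.finrank ℂ (H0 (lsub (lsub L v) w)) + 1 := by
  by_contra hcon
  push Not at hcon
  have hL : ∀ v w, Module.finrank ℂ (H0 (lsub (lsub L v) w)) + 2 ≤ Module.finrank ℂ (H0 L) := by
    intro v w
    have := hcon v w
    omega
  have hd1 : 1 ≤ d := by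
    by_contra h
    have hd0 : d = 0 := by omega
    subst hd0
    obtain ⟨v⟩ := point_nonempty hK
    have h1 := hL v v
    have h2 := h0_lsub hK hg L v
    rw [H0_eq_bot hK (L := lsub L v) (by rw [lsub_degree, hd]; norm_num), finrank_bot] at h2
    omega
  have h1 := growth (fun n => Module.finrank ℂ (H0 (pw L n))) d (by
    change 1 ≤ Module.finrank ℂ (H0 (one K))
    rw [(H0_one hK).2]) (fun n => pw_step hK hg hd hL n) (2 * genus K)
  have h2 := h0_large hK hg (pw L (d - 1 + 2 * genus K)) (by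
    rw [pw_degree, hd]
    push_cast [hd1]
    nlinarith)
  rw [pw_degree, hd] at h2
  beta_reduce at h1
  set F := Module.finrank ℂ (H0 (pw L (d - 1 + 2 * genus K))) with hF
  obtain ⟨e, rfl⟩ : ∃ e, d = e + 1 := ⟨d - 1, by omega⟩
  simp only [Nat.add_sub_cancel] at h1 h2 hdg
  have h3 : e * (e + 1 - 2) = e * (e - 1) := by
    have : e + 1 - 2 = e - 1 := by omega
    rw [this]
  rw [h3] at h1 hdg
  push_cast at h2
  zify at h1 hdg
  nlinarith

/-- `C` carries a linear series of degree `d` and dimension `r`: there is a line bundle `L` of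
degree `d` with `h⁰(L) ≥ r + 1`. -/
def HasSer (K : Type) [Field K] [Algebra ℂ K] (r d : ℕ) : Prop :=
  ∃ L : LineBundle K, L.degree = d ∧ r + 1 ≤ Module.finrank ℂ (H0 L)

theorem descent_aux (hK : IsCurve K) (hg : genus K ≠ 0) {r d : ℕ} (h : HasSer K r d)
    (hdg : (d - 1) * (d - 2) < 2 * genus K) (j : ℕ) (hj : j ≤ r) :
    ∃ L : LineBundle K, L.degree = (d : ℤ) - 2 * j ∧ r + 1 - j ≤ Module.finrank ℂ (H0 L) := by
  induction j with
  | zero =>
    obtain ⟨L, h1, h2⟩ := h
    exact ⟨L, by rw [h1]; simp, by omega⟩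
  | succ j ih =>
    obtain ⟨L, h1, h2⟩ := ih (by omega)
    have h3 : 0 ≤ L.degree := by
      by_contra hneg
      rw [H0_eq_bot hK (not_le.1 hneg), finrank_bot] at h2
      omega
    obtain ⟨e, he⟩ := Int.eq_ofNat_of_zero_le h3
    have h4 : (e - 1) * (e - 2) < 2 * genus K :=
      lt_of_le_of_lt (Nat.mul_le_mul (by omega) (by omega)) hdg
    obtain ⟨v, w, hvw⟩ := not_very_ample hK hg he h4
    refine ⟨lsub (lsub L v) w, ?_, by omega⟩
    rw [lsub_degree, lsub_degree, h1]
    push_cast
    ring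

/-- If `(d-1)(d-2) < 2g`, a `g^r_d` yields a `g^s_{d-2(r-s)}` for all `s ≤ r`. -/
theorem descent (hK : IsCurve K) (hg : genus K ≠ 0) {r s d e : ℕ} (h : HasSer K r d)
    (hdg : (d - 1) * (d - 2) < 2 * genus K) (hs : s ≤ r) (he : e + 2 * r = d + 2 * s) :
    HasSer K s e := by
  obtain ⟨L, h1, h2⟩ := descent_aux hK hg h hdg (r - s) (by omega)
  refine ⟨L, ?_, by omega⟩
  rw [h1]
  omega

/-- Hyperelliptic curves carry linear series of all types `(r, d)` with `d ≥ 2r`. -/
theorem exists_hyp_series (g : ℕ) (hg : 7 ≤ g) : ∃ (K : Type) (_ : Field K) (_ : Algebra ℂ K),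
    IsCurve K ∧ genus K = g ∧ ∀ r d : ℕ, 2 * r ≤ d → HasSer K r d := by
  obtain ⟨K, iF, iA, hK, hgen, h⟩ := exists_hyp g hg
  refine ⟨K, iF, iA, hK, hgen, fun r d hrd => ?_⟩
  obtain ⟨L, h1, h2⟩ := h r
  obtain ⟨M, h3, h4⟩ := exists_up hK L (d - 2 * r)
  have hfin := H0_finite hK (by omega) M
  refine ⟨M, ?_, h2.trans (Submodule.finrank_mono h4)⟩
  rw [h3, h1]
  omega

end Pool.Agent.Q78.BN
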