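import Pool.Agent.Helper395.BC.Pencil

/-!
# Brill-Noether loci: definitions

A smooth projective curve `C` over `ℂ` is given by its function field `K`, line bundles by local
generators, see `Pool/Agent/Helper395/CS/Defs.lean`; `H0 L` is the space of global sections of `L`
and `genus K = dim H¹(C, 𝒪_C)`.
-/

namespace Pool.Agent.Q78.BN

open Pool.Agent.Helper395.CS hiding genus
open Pool.Agent.Helper395.BC

/-- The Brill-Noether number `ρ(g, r, d) = g - (r + 1)(g - d + r)`. -/
def rho (g r d : ℤ) : ℤ := g - (r + 1) * (g - d + r)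

/-- The curve `C` carries a `g^r_d`: there is a line bundle `L` on `C` with `deg L = d` and
`h⁰(C, L) ≥ r + 1`. In other words, `[C] ∈ 𝓜^r_{g,d}`. -/
def HasSeries (K : Type) [Field K] [Algebra ℂ K] (r d : ℤ) : Prop :=
  ∃ L : LineBundle K, L.degree = d ∧ r + 1 ≤ (Module.finrank ℂ (H0 L) : ℤ)

/-- The Brill-Noether locus `𝓜^r_{g,d}` is nonempty: some curve of genus `g` carries a `g^r_d`. -/
def LocusNonempty (g : ℕ) (r d : ℤ) : Prop :=
  ∃ (K : Type) (_ : Field K) (_ : Algebra ℂ K), IsCurve K ∧ genus K = g ∧ HasSeries K r d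

/-- `𝓜^r_{g,d} ⊆ 𝓜^s_{g,e}`: every curve of genus `g` with a `g^r_d` has a `g^s_e`. -/
def LocusSubset (g : ℕ) (r d s e : ℤ) : Prop :=
  ∀ (K : Type) [Field K] [Algebra ℂ K], IsCurve K → genus K = g → HasSeries K r d → HasSeries K s e

end Pool.Agent.Q78.BN
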