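import Pool.Agent.Q78.BN.HypGenus

/-!
# Hyperelliptic curves of every genus `≥ 7`
-/

open scoped WithZero Matrix Polynomial IntermediateField
open WithZero

set_option linter.unusedSectionVars false
set_option linter.unusedVariables false

namespace Pool.Agent.Q78.BN

open Pool.Agent.Helper395.CS hiding genus map_mul map_inv
open Pool.Agent.Helper395.BC Pool.Agent.W525.BA

variable {K : Type} [Field K] [Algebra ℂ K]

section Hyp

variable {x y : K} {f f' : ℂ[X]} {b : ℕ} {ι : K ≃ₐ[ℂ] K}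

theorem dgen_mono {v : Point K} {m n : ℕ} (h : m ≤ n) :
    v.val (dgen x v m) ≤ v.val (dgen x v n) := by
  by_cases hv : v.val x ≤ 1
  · rw [dgen_fin hv, dgen_fin hv]
  · rw [dgen_inf (not_le.1 hv), dgen_inf (not_le.1 hv), map_pow, map_pow]
    exact pow_le_pow_right₀ (not_le.1 hv).le h

theorem dgen_add (v : Point K) (m n : ℕ) :
    v.val (dgen x v m) * v.val (dgen x v n) = v.val (dgen x v (m + n)) := by
  by_cases hv : v.val x ≤ 1
  · rw [dgen_fin hv, dgen_fin hv, dgen_fin hv, map_one, one_mul]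
  · rw [dgen_inf (not_le.1 hv), dgen_inf (not_le.1 hv), dgen_inf (not_le.1 hv), map_pow, map_pow,
      map_pow, pow_add]

theorem aeval_le_dgen (v : Point K) {p : ℂ[X]} (hp : p ≠ 0) :
    v.val (Polynomial.aeval x p) ≤ v.val (dgen x v p.natDegree) := by
  by_cases hv : v.val x ≤ 1
  · rw [dgen_fin hv, map_one]
    exact aeval_le hv p
  · rw [dgen_inf (not_le.1 hv), map_pow, val_aeval_inf (not_le.1 hv) p hp]

/-- one point -/
theorem exists_clear_one (H : Hyp x y f ι) (v : Point K) (r : K) :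
    ∃ (P : ℂ[X]) (M : ℕ), P ≠ 0 ∧ v.val (r * Polynomial.aeval x P) ≤ v.val (dgen x v M) := by
  rcases eq_or_ne r 0 with rfl | hr
  · exact ⟨1, 0, one_ne_zero, by rw [zero_mul, map_zero]; exact zero_le⟩
  by_cases hv : v.val x ≤ 1
  · obtain ⟨a, ha⟩ := exists_residue H.curve H.trans v hv
    have hxa : x - algebraMap ℂ K a ≠ 0 := by
      have := aeval_ne_zero H.trans (Polynomial.X_sub_C_ne_zero a)
      simpa using this
    have h1 : 0 < v.ord (x - algebraMap ℂ K a) := (v.val_lt_one_iff hxa).1 ha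
    refine ⟨(Polynomial.X - Polynomial.C a) ^ (-v.ord r).toNat, 0,
      pow_ne_zero _ (Polynomial.X_sub_C_ne_zero a), ?_⟩
    rw [dgen_fin hv, map_one, map_pow, map_sub, Polynomial.aeval_X, Polynomial.aeval_C,
      v.val_le_one_iff (mul_ne_zero hr (pow_ne_zero _ hxa)), v.ord_mul hr (pow_ne_zero _ hxa),
      v.ord_pow]
    have h2 : -v.ord r ≤ ((-v.ord r).toNat : ℤ) := Int.self_le_toNat _
    nlinarith [Int.natCast_nonneg (-v.ord r).toNat]
  · have hv' := not_le.1 hv
    have h1 : v.ord x < 0 := (v.one_lt_val_iff H.x_ne).1 hv'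
    refine ⟨1, (-v.ord r).toNat, one_ne_zero, ?_⟩
    rw [map_one, mul_one, dgen_inf hv']
    have hne : x ^ (-v.ord r).toNat ≠ 0 := pow_ne_zero _ H.x_ne
    have h3 : v.val (r / x ^ (-v.ord r).toNat) ≤ 1 := by
      rw [v.val_le_one_iff (div_ne_zero hr hne), div_eq_mul_inv,
        v.ord_mul hr (inv_ne_zero hne), v.ord_inv, v.ord_pow]
      have h2 : -v.ord r ≤ ((-v.ord r).toNat : ℤ) := Int.self_le_toNat _
      nlinarith [Int.natCast_nonneg (-v.ord r).toNat]
    rw [map_div₀, div_le_iff₀ (zero_lt_iff.2 (v.val_ne_zero hne)), one_mul] at h3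
    exact h3

/-- all points -/
theorem exists_clear (H : Hyp x y f ι) (S : Finset (Point K)) (r : Point K → K) :
    ∃ (P : ℂ[X]) (M : ℕ), P ≠ 0 ∧
      ∀ v ∈ S, v.val (r v * Polynomial.aeval x P) ≤ v.val (dgen x v M) := by
  classical
  induction S using Finset.induction_on with
  | empty => exact ⟨1, 0, one_ne_zero, by simp⟩
  | insert w S hw ih =>
    obtain ⟨P, M, hP, hM⟩ := ih
    obtain ⟨Q, N, hQ, hN⟩ := exists_clear_one H w (r w)
    refine ⟨P * Q, (M + Q.natDegree) + (N + P.natDegree), mul_ne_zero hP hQ, fun v hv => ?_⟩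
    rw [map_mul (Polynomial.aeval x) P Q]
    rcases Finset.mem_insert.1 hv with rfl | hv
    · have h1 : r v * (Polynomial.aeval x P * Polynomial.aeval x Q) =
          (r v * Polynomial.aeval x Q) * Polynomial.aeval x P := by ring
      rw [h1, map_mul]
      refine (mul_le_mul' hN (aeval_le_dgen v hP)).trans ?_
      rw [dgen_add]
      exact dgen_mono (by omega)
    · rw [← mul_assoc, map_mul]
      refine (mul_le_mul' (hM v hv) (aeval_le_dgen v hQ)).trans ?_
      rw [dgen_add]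
      exact dgen_mono (by omega)

/-- the twist of a multiple of the pencil by a polynomial -/
noncomputable def twP (H : Hyp x y f ι) (P : ℂ[X]) (hP : P ≠ 0) (M : ℕ) : LineBundle K :=
  lmul (lineH H.curve H.x_ne M)
    (linv (lprin H.curve (Units.mk0 (Polynomial.aeval x P) (aeval_ne_zero H.trans hP))))

theorem mem_twP (H : Hyp x y f ι) {P : ℂ[X]} (hP : P ≠ 0) (M : ℕ) (v : Point K) (s : K) :
    s ∈ (twP H P hP M).stalk v ↔ v.val (s * Polynomial.aeval x P) ≤ v.val (dgen x v M) := by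
  rw [twP, mem_lmul_linv]
  rfl

theorem twP_degree (H : Hyp x y f ι) (R : Pool.Agent.Y803.FD.Rev f f' b) {P : ℂ[X]} (hP : P ≠ 0)
    (M : ℕ) : (twP H P hP M).degree = 2 * M := by
  rw [twP, lmul_degree, linv_degree, lprin_degree, Pool.Agent.Y803.FD.degree_lineH H R]
  ring

theorem h0_twP (H : Hyp x y f ι) (R : Pool.Agent.Y803.FD.Rev f f' b) {P : ℂ[X]} (hP : P ≠ 0)
    {M : ℕ} (hM : b + 7 ≤ M) : Module.finrank ℂ (H0 (twP H P hP M)) = 2 * M - (b + 6) := by
  rw [← h0_lineH H R hM]
  have hne : Polynomial.aeval x P ≠ 0 := aeval_ne_zero H.trans hP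
  apply h0_scale (Polynomial.aeval x P) hne
  intro v
  change v.val (((lineH H.curve H.x_ne M).frame v *
    (Units.mk0 (Polynomial.aeval x P) hne)⁻¹ : Kˣ) : K) * _ = _
  rw [Units.val_mul, Units.val_inv_eq_inv_val, Units.val_mk0, map_mul, map_inv₀, mul_assoc,
    inv_mul_cancel₀ (v.val_ne_zero hne), mul_one]

theorem om1_lineH (H : Hyp x y f ι) (R : Pool.Agent.Y803.FD.Rev f f' b) :
    Om1 (lineH H.curve H.x_ne (b + 7)) = ⊥ := by
  classical
  rw [eq_bot_iff]
  intro l hl
  rw [Submodule.mem_bot]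
  refine LinearMap.ext fun r => ?_
  rw [LinearMap.zero_apply]
  have hrf : {v : Point K | ¬ v.val (r.1 v) ≤ 1}.Finite := r.2
  obtain ⟨P, M, hP, hPM⟩ := exists_clear H hrf.toFinset r.1
  set N := M + P.natDegree + (b + 7) with hN
  have h1 := (om1_le_of_h0 H.curve (lineH H.curve H.x_ne (b + 7)) (2 * (N - (b + 7)))
    (twP H P hP N) (Module.finite_of_finrank_pos (by
      rw [h0_twP H R hP (by omega)]; omega)) (by
    intro v s hs
    have hs' : v.val s ≤ v.val (dgen x v (b + 7)) := hs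
    rw [mem_twP, map_mul]
    refine (mul_le_mul' hs' (aeval_le_dgen v hP)).trans ?_
    rw [dgen_add]
    exact dgen_mono (by omega)) (by
    rw [twP_degree H R, Pool.Agent.Y803.FD.degree_lineH H R]
    push_cast
    omega)).2 (by
    rw [h0_twP H R hP (by omega), h0_lineH H R le_rfl]
    omega)
  apply (h1 hl).2 r
  intro v
  rw [mem_twP]
  by_cases hv : v.val (r.1 v) ≤ 1
  · rw [map_mul]
    have h2 : v.val (dgen x v 0) = 1 := by
      by_cases hx : v.val x ≤ 1
      · rw [dgen_fin hx, map_one]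
      · rw [dgen_inf (not_le.1 hx), pow_zero, map_one]
    refine (mul_le_mul' (hv.trans_eq h2.symm) (aeval_le_dgen v hP)).trans ?_
    rw [dgen_add]
    exact dgen_mono (by omega)
  · exact (hPM v (by rw [Set.Finite.mem_toFinset]; exact hv)).trans (dgen_mono (by omega))

/-- the genus of the curve `y² = f(x)`, `deg f = 2b + 16`, is `b + 7` -/
theorem genus_hyp (H : Hyp x y f ι) (R : Pool.Agent.Y803.FD.Rev f f' b) : genus K = b + 7 := by
  have h0 := h0_lineH H R (m := b + 7) le_rfl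
  have hchi : LHasChi (lineH H.curve H.x_ne (b + 7)) (b + 8) := by
    refine ⟨Module.finite_of_finrank_pos (by rw [h0]; omega), ?_, ?_⟩
    · rw [om1_lineH H R]; infer_instance
    · rw [om1_lineH H R, finrank_bot, h0]
      push_cast
      omega
  have h1 := hasChi_of_hasChi H.curve (hasChi_lsum hchi 1) (F := lsum (one K) 1)
  have h2 := lHasChi_of_lsum h1
  obtain ⟨-, hf, h3⟩ := h2
  rw [(H0_one H.curve).2, lsum_degree, lsum_degree, one_degree,
    Pool.Agent.Y803.FD.degree_lineH H R] at h3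
  have h4 : Module.finrank ℂ (Om1 (one K)) = b + 7 := by
    push_cast at h3
    omega
  have e := Submodule.dualQuotEquivDualAnnihilator
    ((integralRepartitions K ⊔ principalRepartitions K).comap (repartitions K).subtype)
  rw [← om1_one_eq] at e
  rw [← h4, ← e.finrank_eq, Subspace.dual_finrank_eq]
  rfl

end Hyp

/-- There are hyperelliptic curves of every genus `g ≥ 7`; they carry line bundles of degree `2r`
with at least `r + 1` sections, for all `r`. -/
theorem exists_hyp (g : ℕ) (hg : 7 ≤ g) : ∃ (K : Type) (_ : Field K) (_ : Algebra ℂ K),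
    IsCurve K ∧ genus K = g ∧ ∀ r : ℕ, ∃ L : LineBundle K, L.degree = 2 * r ∧
      r + 1 ≤ Module.finrank ℂ (H0 L) := by
  obtain ⟨b, rfl⟩ := Nat.exists_eq_add_of_le hg
  obtain ⟨s, -, hs⟩ := Infinite.exists_superset_card_eq (∅ : Finset ℂ) (2 * b + 16) (by simp)
  have hirr : Irreducible (Pool.Agent.Y803.FD.Pf (Pool.Agent.Y803.FD.fs s)) :=
    Pool.Agent.Y803.FD.Pf_irreducible (Pool.Agent.Y803.FD.fs_sep s) (by
      rw [Pool.Agent.Y803.FD.fs_deg, hs]; omega)
  have : Fact (Irreducible (Pool.Agent.Y803.FD.Pf (Pool.Agent.Y803.FD.fs s))) := ⟨hirr⟩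
  have H := Pool.Agent.Y803.FD.hypf (Pool.Agent.Y803.FD.fs s) (Pool.Agent.Y803.FD.fs_sep s)
  have R := Pool.Agent.Y803.FD.revs s hs
  have hgen := genus_hyp H R
  refine ⟨_, _, _, H.curve, by rw [hgen]; omega, fun r =>
    ⟨lineH H.curve H.x_ne r, Pool.Agent.Y803.FD.degree_lineH H R r, ?_⟩⟩
  exact h0_lineH_ge H r (H0_finite H.curve (by rw [hgen]; omega) _)

end Pool.Agent.Q78.BN
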