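import Pool.Agent.Q78.BN.Base
import Pool.Agent.Y803.FD.Model

/-!
# Hyperelliptic curves: `dim H¹(𝒪) = b + 7` for `y² = f(x)`, `deg f = 2b + 16`
-/

open scoped WithZero Matrix Polynomial IntermediateField
open WithZero

set_option linter.unusedSectionVars false
set_option linter.unusedVariables false

namespace Pool.Agent.Q78.BN

open Pool.Agent.Helper395.CS hiding genus map_mul map_inv
open Pool.Agent.Helper395.BC Pool.Agent.W525.BA
open Pool.Agent.TH350.J203 (mem_H0_lsub)

variable {K : Type} [Field K] [Algebra ℂ K]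

theorem h0_lsub_fin (hK : IsCurve K) (L : LineBundle K) (v : Point K)
    (f1 : FiniteDimensional ℂ (H0 L)) :
    Module.finrank ℂ (H0 L) ≤ Module.finrank ℂ (H0 (lsub L v)) + 1 := by
  have hle : H0 (lsub L v) ≤ H0 L := H0_lsub_le' L v
  by_cases hc : H0 L ≤ H0 (lsub L v)
  · rw [le_antisymm hc hle]
    omega
  · obtain ⟨x, hx, hx'⟩ := Set.not_subset.1 hc
    have hxv : v.val x = v.val (L.frame v : K) := by
      refine le_antisymm (hx v) ?_
      by_contra hlt
      apply hx'
      exact (mem_H0_lsub L v x).2 ⟨hx, not_le.1 hlt⟩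
    have hx0 : x ≠ 0 := by
      rintro rfl
      rw [map_zero] at hxv
      exact (frame_pos L v).ne hxv
    have h1 := finrank_succ_aux hle hx hx' (fun p hp => by
      have h2 : v.val (p / x) ≤ 1 := by
        rw [map_div₀, hxv, div_le_one₀ (frame_pos L v)]
        exact hp v
      obtain ⟨c, hc⟩ := exists_res hK v h2
      refine ⟨c, (mem_H0_lsub L v _).2 ⟨(H0 L).sub_mem hp ((H0 L).smul_mem c hx), ?_⟩⟩
      have h3 : p - c • x = (p / x - algebraMap ℂ K c) * x := by
        rw [sub_mul, div_mul_cancel₀ _ hx0, Algebra.smul_def]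
      rw [h3, map_mul, hxv]
      exact mul_lt_of_lt_one_left (frame_pos L v) hc)
    have h2 := h1.2 f1
    omega

theorem om1_lsub_le (hK : IsCurve K) (L : LineBundle K) (v : Point K)
    (h : Module.finrank ℂ (H0 (lsub L v)) < Module.finrank ℂ (H0 L)) :
    Om1 (lsub L v) ≤ Om1 L := by
  obtain ⟨x, hx, hxv⟩ := exists_generator L v h
  have hx0 : x ≠ 0 := by
    rintro rfl
    rw [map_zero] at hxv
    exact (frame_pos L v).ne hxv
  intro l hl
  refine ⟨hl.1, fun r hr => ?_⟩
  have h2 : v.val (r.1 v / x) ≤ 1 := by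
    rw [map_div₀, hxv, div_le_one₀ (frame_pos L v)]
    exact hr v
  obtain ⟨c, hc⟩ := exists_res hK v h2
  have hxr : (fun _ : Point K => x) ∈ repartitions K := finite_not_reg hK x
  have h3 : l (r - c • ⟨fun _ => x, hxr⟩) = 0 := by
    apply hl.2
    intro w
    change r.1 w - c • x ∈ _
    rcases eq_or_ne w v with rfl | hw
    · rw [mem_lsub_self]
      have h3 : r.1 w - c • x = (r.1 w / x - algebraMap ℂ K c) * x := by
        rw [sub_mul, div_mul_cancel₀ _ hx0, Algebra.smul_def]
      rw [h3, map_mul, hxv]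
      exact mul_lt_of_lt_one_left (frame_pos L w) hc
    · rw [mem_lsub_ne L hw]
      have h4 : c • x ∈ L.stalk w := (H0 L).smul_mem c hx w
      have h5 := lstalk_add (hr w) (lstalk_smul h4 (-1))
      have h6 : r.1 w + (-1 : ℂ) • c • x = r.1 w - c • x := by
        rw [neg_smul, one_smul, sub_eq_add_neg]
      rwa [h6] at h5
  rw [map_sub, map_smul, hl.1 ⟨fun _ => x, hxr⟩ ⟨x, fun _ => rfl⟩, smul_zero, sub_zero] at h3
  exact h3

/-- comparison of `H⁰` and `H¹` for `L ⊆ L'` -/
theorem om1_le_of_h0 (hK : IsCurve K) (L : LineBundle K) : ∀ (k : ℕ) (L' : LineBundle K),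
    FiniteDimensional ℂ (H0 L') → (∀ v s, s ∈ L.stalk v → s ∈ L'.stalk v) →
    L'.degree = L.degree + k → Module.finrank ℂ (H0 L') ≤ Module.finrank ℂ (H0 L) + k ∧
    (Module.finrank ℂ (H0 L) + k ≤ Module.finrank ℂ (H0 L') → Om1 L ≤ Om1 L') := by
  intro k
  induction k with
  | zero =>
    intro L' _ hle hd
    have h1 : ∀ v, L.stalk v = L'.stalk v :=
      fun v => lstalk_eq_of_degree_eq hK hle (by rw [hd]; simp) v
    refine ⟨by rw [H0_congr h1]; omega, fun _ l hl => ⟨hl.1, fun r hr => hl.2 r fun v => ?_⟩⟩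
    rw [h1 v]
    exact hr v
  | succ k ih =>
    intro L' hfin hle hd
    have hex : ∃ v, ∃ t ∈ L'.stalk v, t ∉ L.stalk v := by
      by_contra hcon
      push Not at hcon
      have := ldegree_le hK hcon
      push_cast at hd
      omega
    obtain ⟨v, t, ht, ht'⟩ := hex
    have hlt : v.val (L.frame v : K) < v.val (L'.frame v : K) :=
      (not_le.1 (fun h => ht' h)).trans_le ht
    have hfin' : FiniteDimensional ℂ (H0 (lsub L' v)) :=
      Submodule.finiteDimensional_of_le (H0_lsub_le' L' v)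
    obtain ⟨h1, h2⟩ := ih (lsub L' v) hfin' (by
      intro w s hs
      rcases eq_or_ne w v with rfl | hw
      · rw [mem_lsub_self]
        exact lt_of_le_of_lt hs hlt
      · rw [mem_lsub_ne L' hw]
        exact hle w s hs) (by rw [lsub_degree, hd]; push_cast; ring)
    have h3 := h0_lsub_fin hK L' v hfin
    refine ⟨by omega, fun h4 => (h2 (by omega)).trans (om1_lsub_le hK L' v (by omega))⟩

section Hyp

variable {x y : K} {f f' : ℂ[X]} {b : ℕ} {ι : K ≃ₐ[ℂ] K}

/-- sections of the multiples of the pencil of degree two -/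
noncomputable def hmap (x y : K) (m n : ℕ) : ((Fin m → ℂ) × (Fin n → ℂ)) →ₗ[ℂ] K where
  toFun c := pev x m c.1 + pev x n c.2 * y
  map_add' c d := by
    change pev x m (c.1 + d.1) + pev x n (c.2 + d.2) * y = _
    rw [map_add, map_add]
    ring
  map_smul' a c := by
    change pev x m (a • c.1) + pev x n (a • c.2) * y = _
    rw [map_smul, map_smul, RingHom.id_apply, smul_add, smul_mul_assoc]

theorem pev_coeff' (x : K) (p : ℂ[X]) {m : ℕ} (hp : p ≠ 0 → p.natDegree < m) :
    pev x m (fun j => p.coeff j) = Polynomial.aeval x p := by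
  rcases eq_or_ne p 0 with rfl | h0
  · rw [map_zero, pev_apply]
    simp
  · rw [pev_apply, Polynomial.aeval_eq_sum_range' (hp h0),
      Finset.sum_range (fun i => p.coeff i • x ^ i)]

theorem pev_mem_adj (x : K) (m : ℕ) (c : Fin m → ℂ) : pev x m c ∈ ℂ⟮x⟯ := by
  rw [pev_eq_aeval]
  exact mem_adj _

theorem hmap_inj (H : Hyp x y f ι) (m n : ℕ) : Function.Injective (hmap x y m n) := by
  rw [← LinearMap.ker_eq_bot, LinearMap.ker_eq_bot']
  rintro ⟨c, d⟩ h
  have h1 := H.coeff_zero (pev_mem_adj x m c) (pev_mem_adj x n d) h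
  have h2 : c = 0 := pev_injective H.trans m (by rw [h1.1, map_zero])
  have h3 : d = 0 := pev_injective H.trans n (by rw [h1.2, map_zero])
  rw [h2, h3]
  rfl

theorem val_y_le (H : Hyp x y f ι) {v : Point K} (hv : v.val x ≤ 1) : v.val y ≤ 1 := by
  have h1 : v.val (y ^ 2) ≤ 1 := by
    rw [H.eq]
    exact aeval_le hv f
  rw [map_pow] at h1
  exact (pow_le_one_iff two_ne_zero).1 h1

theorem pev_le_pow {v : Point K} (hv : 1 < v.val x) {m k : ℕ} (hmk : m ≤ k + 1)
    (c : Fin m → ℂ) : v.val (pev x m c) ≤ v.val x ^ k := by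
  rw [pev_apply]
  refine Valuation.map_sum_le _ fun j _ => ?_
  rw [Algebra.smul_def, map_mul, map_pow]
  refine (mul_le_of_le_one_left' (v.const_le _)).trans ?_
  exact pow_le_pow_right₀ hv.le (by have := j.2; omega)

theorem pev_le_one {v : Point K} (hv : v.val x ≤ 1) {m : ℕ} (c : Fin m → ℂ) :
    v.val (pev x m c) ≤ 1 := by
  rw [pev_eq_aeval]
  exact aeval_le hv _

theorem range_hmap (H : Hyp x y f ι) (R : Pool.Agent.Y803.FD.Rev f f' b) {m : ℕ}
    (hm : b + 7 ≤ m) :
    LinearMap.range (hmap x y (m + 1) (m - (b + 7))) = H0 (lineH H.curve H.x_ne m) := by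
  apply le_antisymm
  · rintro _ ⟨⟨c, d⟩, rfl⟩ v
    change v.val (pev x (m + 1) c + pev x (m - (b + 7)) d * y) ≤ v.val (dgen x v m)
    by_cases hv : v.val x ≤ 1
    · rw [dgen_fin hv, map_one]
      refine Valuation.map_add_le _ (pev_le_one hv c) ?_
      rw [map_mul]
      exact mul_le_one' (pev_le_one hv d) (val_y_le H hv)
    · have hv' := not_le.1 hv
      rw [dgen_inf hv', map_pow]
      refine Valuation.map_add_le _ (pev_le_pow hv' le_rfl c) ?_
      rcases eq_or_ne (pev x (m - (b + 7)) d) 0 with h0 | h0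
      · rw [h0, zero_mul, map_zero]; exact zero_le
      · have hm2 : m - (b + 7) ≠ 0 := by
          intro hm2
          apply h0
          have : Subsingleton (Fin (m - (b + 7)) → ℂ) := by
            rw [hm2]; infer_instance
          rw [Subsingleton.elim d 0, map_zero]
        rw [map_mul, Pool.Agent.Y803.FD.val_y_inf H R hv']
        have h1 := pev_le_pow (x := x) hv' (m := m - (b + 7)) (k := m - (b + 8)) (by omega) d
        refine (mul_le_mul' h1 le_rfl).trans (le_of_eq ?_)
        rw [← pow_add]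
        congr 1
        omega
  · intro z hz
    have hz' : ∀ v : Point K, v.val z ≤ v.val (dgen x v m) := hz
    obtain ⟨p, q, rfl⟩ := H.mem_ring (z := z) (fun v hv => by
      have := hz' v
      rwa [dgen_fin hv, map_one] at this)
    obtain ⟨v, hv⟩ := exists_inf H
    have h1 := H.parts_le rfl (mem_adj p) (mem_adj q) v (C := v.val x ^ m) (by
      have := hz' v
      rwa [dgen_inf hv, map_pow] at this) (by
      have h2 : 1 < (v.comap ι).val x := by rw [H.comap_x]; exact hv
      have := hz' (v.comap ι)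
      rwa [dgen_inf h2, map_pow, H.comap_x] at this)
    have hp : p ≠ 0 → p.natDegree < m + 1 := by
      intro hp
      have h4 := h1.1
      rw [val_aeval_inf hv p hp, pow_le_pow_iff_right₀ hv] at h4
      omega
    have hq : q ≠ 0 → q.natDegree < m - (b + 7) := by
      intro hq
      have h3 := h1.2
      rw [map_mul, val_aeval_inf hv q hq, Pool.Agent.Y803.FD.val_y_inf H R hv, ← pow_add,
        pow_le_pow_iff_right₀ hv] at h3
      omega
    refine ⟨(fun j => p.coeff j, fun j => q.coeff j), ?_⟩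
    change pev x (m + 1) _ + pev x (m - (b + 7)) _ * y = _
    rw [pev_coeff' x p hp, pev_coeff' x q hq]

theorem h0_lineH (H : Hyp x y f ι) (R : Pool.Agent.Y803.FD.Rev f f' b) {m : ℕ}
    (hm : b + 7 ≤ m) : Module.finrank ℂ (H0 (lineH H.curve H.x_ne m)) = 2 * m - (b + 6) := by
  rw [← range_hmap H R hm, LinearMap.finrank_range_of_inj (hmap_inj H _ _),
    Module.finrank_prod, Module.finrank_fin_fun, Module.finrank_fin_fun]
  omega

/-- all multiples of the pencil have many sections -/
theorem h0_lineH_ge (H : Hyp x y f ι) (m : ℕ)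
    (hfin : FiniteDimensional ℂ (H0 (lineH H.curve H.x_ne m))) :
    m + 1 ≤ Module.finrank ℂ (H0 (lineH H.curve H.x_ne m)) := by
  have h1 : LinearMap.range (pev x (m + 1)) ≤ H0 (lineH H.curve H.x_ne m) := by
    rintro _ ⟨c, rfl⟩ v
    exact pev_le v m c
  have h2 := Submodule.finrank_mono h1
  rw [LinearMap.finrank_range_of_inj (pev_injective H.trans _), Module.finrank_fin_fun] at h2
  exact h2

end Hyp

end Pool.Agent.Q78.BN
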