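import Pool.Agent.Q78.BN.Comp
import Pool.Agent.Q78.BN.Defs

/-!
# Containments of Brill-Noether loci in small degree
-/

namespace Pool.Agent.Q78.BN

open Pool.Agent.Helper395.CS hiding genus map_mul map_inv
open Pool.Agent.Helper395.BC

variable {K : Type} [Field K] [Algebra ℂ K]

/-- If `(d-1)(d-2) < 2g`, then `𝓜^r_{g,d} ⊆ 𝓜^s_{g,d-2(r-s)}` for all `0 ≤ s ≤ r`. -/
theorem locusSubset {g : ℕ} {r s d : ℤ} (hg : 0 < g) (hd : 1 ≤ d)
    (hdg : (d - 1) * (d - 2) < 2 * g) (hs0 : 0 ≤ s) (hs : s ≤ r) :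
    LocusSubset g r d s (d - 2 * r + 2 * s) := by
  intro K _ _ hK hgen h
  obtain ⟨L, h1, h2⟩ := h
  obtain ⟨r', rfl⟩ := Int.eq_ofNat_of_zero_le (hs0.trans hs)
  obtain ⟨s', rfl⟩ := Int.eq_ofNat_of_zero_le hs0
  obtain ⟨d', rfl⟩ : ∃ d' : ℕ, d = (d' : ℤ) + 1 := ⟨(d - 1).toNat, by omega⟩
  have hg0 : genus K ≠ 0 := by omega
  have h3 : (d' + 1 - 1) * (d' + 1 - 2) < 2 * genus K := by
    rw [hgen]
    rcases d' with _ | d'
    · omega
    · have h4 : d' + 1 + 1 - 1 = d' + 1 := by omega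
      have h5 : d' + 1 + 1 - 2 = d' := by omega
      rw [h4, h5]
      push_cast at hdg
      zify
      nlinarith
  obtain ⟨M, h4, h5⟩ := descent_aux hK hg0 (r := r') (d := d' + 1)
    ⟨L, by rw [h1]; push_cast; ring, by push_cast at h2; omega⟩ h3 (r' - s') (by omega)
  refine ⟨M, ?_, ?_⟩
  · rw [h4]
    push_cast
    have : ((r' - s' : ℕ) : ℤ) = r' - s' := by
      push_cast at hs
      omega
    rw [this]
    ring
  · push_cast at hs ⊢
    omega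

/-- `𝓜^r_{g,d}` is nonempty for `g ≥ 7`, `d ≥ 2r`: it contains the hyperelliptic curves. -/
theorem locusNonempty {g : ℕ} {r d : ℤ} (hg : 7 ≤ g) (hr : 0 ≤ r) (hd : 2 * r ≤ d) :
    LocusNonempty g r d := by
  obtain ⟨K, iF, iA, hK, hgen, h⟩ := exists_hyp_series g hg
  obtain ⟨L, h1, h2⟩ := h r.toNat d.toNat (by omega)
  exact ⟨K, iF, iA, hK, hgen, L, by rw [h1]; omega, by omega⟩

/-- numerical facts -/
theorem rho_neg {g r d : ℤ} (hr : 1 ≤ r) (hd : 1 ≤ d) (h : 2 * (d - 1) < g) :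
    rho g r d < 0 := by
  simp only [rho]
  nlinarith [mul_nonneg (by linarith : (0:ℤ) ≤ r - 1) (by linarith : (0:ℤ) ≤ d - 1),
    mul_nonneg (by linarith : (0:ℤ) ≤ r + 1) (by linarith : (0:ℤ) ≤ r - 1),
    mul_pos (by linarith : (0:ℤ) < r) (by linarith : (0:ℤ) < g - 2 * (d - 1))]

theorem lt_g {g d : ℤ} (hd : 6 ≤ d) (hdg : (d - 1) * (d - 2) < 2 * g) : 2 * (d - 1) < g := by
  nlinarith

end Pool.Agent.Q78.BN
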